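import Pool.Agent.H68.GHY.Targets
import Pool.Agent.H34.GM.MEL
import Pool.Agent.H34.GM.THC

/-!
Row AFD of the board ghy: the direct half of the approximate functional equation (helper52).
-/

set_option autoImplicit false

namespace Pool.Agent.H52.GHY

open MeasureTheory Pool.Agent.H34.GM Pool.Agent.H34.GZ Pool.Agent.H34.GU Pool.Agent.H34.GA
open Pool.Agent.H68.GHY

/-- the kernel of the cut-off -/
noncomputable def kr (a b τ : ℝ) : ℂ :=
  ∫ v in Set.Ioc a b, Complex.exp (((-(τ * v) : ℝ) : ℂ) * Complex.I)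

theorem kr_le {a b : ℝ} (hab : a ≤ b) (τ : ℝ) : ‖kr a b τ‖ ≤ b - a := by
  unfold kr
  have h := norm_setIntegral_le_of_norm_le_const (μ := volume) (s := Set.Ioc a b) (C := 1)
    (f := fun v : ℝ => Complex.exp (((-(τ * v) : ℝ) : ℂ) * Complex.I))
    (by rw [Real.volume_Ioc]; exact ENNReal.ofReal_lt_top)
    (fun v _ => by rw [Complex.norm_exp_ofReal_mul_I])
  rw [one_mul, Real.volume_real_Ioc_of_le hab] at h
  exact h

theorem joint {k : ℝ → ℂ} (hk : Integrable k) (a b u : ℝ) :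
    Integrable (Function.uncurry fun (v τ : ℝ) =>
      k τ * Complex.exp (((τ * (u - v) : ℝ) : ℂ) * Complex.I))
      ((volume.restrict (Set.Ioc a b)).prod volume) := by
  have h1 : Integrable (fun z : ℝ × ℝ => (1 : ℂ) * k z.2)
      ((volume.restrict (Set.Ioc a b)).prod volume) :=
    Integrable.mul_prod (f := fun _ : ℝ => (1 : ℂ)) (integrable_const 1) hk
  have hc : Continuous fun z : ℝ × ℝ =>
      Complex.exp (((z.2 * (u - z.1) : ℝ) : ℂ) * Complex.I) := by fun_prop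
  have h2 := h1.mul_bdd (c := 1) hc.aestronglyMeasurable
    (Filter.Eventually.of_forall fun z => by rw [Complex.norm_exp_ofReal_mul_I])
  refine h2.congr (Filter.Eventually.of_forall fun z => ?_)
  show (1 : ℂ) * k z.2 * _ = k z.2 * _
  rw [one_mul]

theorem kr_pt (k : ℝ → ℂ) (a b u τ : ℝ) :
    ∫ v in Set.Ioc a b, k τ * Complex.exp (((τ * (u - v) : ℝ) : ℂ) * Complex.I) =
      k τ * kr a b τ * Complex.exp (((τ * u : ℝ) : ℂ) * Complex.I) := by
  unfold kr
  rw [integral_const_mul, mul_assoc, ← integral_mul_const]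
  congr 1
  refine integral_congr_ae (Filter.Eventually.of_forall fun v => ?_)
  show Complex.exp _ = Complex.exp _ * Complex.exp _
  rw [← Complex.exp_add]
  congr 1
  push_cast
  ring

theorem kr_int {k : ℝ → ℂ} (hk : Integrable k) (a b : ℝ) :
    Integrable fun τ => k τ * kr a b τ := by
  have h := (joint hk a b 0).integral_prod_right
  refine h.congr (Filter.Eventually.of_forall fun τ => ?_)
  show ∫ v in Set.Ioc a b, k τ * Complex.exp (((τ * (0 - v) : ℝ) : ℂ) * Complex.I) =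
    k τ * kr a b τ
  rw [kr_pt, mul_zero, Complex.ofReal_zero, zero_mul, Complex.exp_zero, mul_one]

/-- the cut-off as a Fourier integral -/
theorem wq_eq {w : ℝ → ℝ} {k : ℝ → ℂ} (hw : Win w k) {a R r : ℝ} (har : a + 2 ≤ Real.log r) :
    (Wq w R r : ℂ) = ∫ τ : ℝ, k τ * kr a (Real.log R) τ *
      Complex.exp (((τ * Real.log r : ℝ) : ℂ) * Complex.I) := by
  have h1 : Wq w R r = ∫ v in Set.Ioc a (Real.log R), w (Real.log r - v) := by
    unfold Wq
    refine setIntegral_eq_of_subset_of_forall_sdiff_eq_zero measurableSet_Iic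
      (fun v hv => hv.2) fun v hv => ?_
    by_contra hne
    have h2 := hw.supp _ hne
    have h3 : v ≤ a := by
      by_contra hlt
      exact hv.2 ⟨not_le.1 hlt, hv.1⟩
    have h4 := le_abs_self (Real.log r - v)
    linarith
  rw [h1, ← integral_complex_ofReal]
  calc ∫ v in Set.Ioc a (Real.log R), ((w (Real.log r - v) : ℝ) : ℂ)
      = ∫ v in Set.Ioc a (Real.log R), ∫ τ : ℝ, k τ *
          Complex.exp (((τ * (Real.log r - v) : ℝ) : ℂ) * Complex.I) := by
        refine integral_congr_ae (Filter.Eventually.of_forall fun v => ?_)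
        exact hw.ft _
    _ = ∫ τ : ℝ, ∫ v in Set.Ioc a (Real.log R), k τ *
          Complex.exp (((τ * (Real.log r - v) : ℝ) : ℂ) * Complex.I) :=
        integral_integral_swap (joint hw.cint a (Real.log R) (Real.log r))
    _ = _ := by
        refine integral_congr_ae (Filter.Eventually.of_forall fun τ => ?_)
        exact kr_pt k a (Real.log R) (Real.log r) τ

theorem wq_zero {w : ℝ → ℝ} {k : ℝ → ℂ} (hw : Win w k) {R r : ℝ}
    (h : Real.log R + 1 < Real.log r) : Wq w R r = 0 := by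
  unfold Wq
  refine setIntegral_eq_zero_of_forall_eq_zero fun v hv => ?_
  by_contra hne
  have h2 := hw.supp _ hne
  have h4 := le_abs_self (Real.log r - v)
  have h5 : v ≤ Real.log R := hv
  linarith

theorem psi_int {ψ : ℝ → ℂ} (hc : ContinuousOn ψ (Set.Ioi 0)) {r0 : ℝ} (h1 : 1 < r0)
    (hs : ∀ r : ℝ, 0 < r → ψ r ≠ 0 → r0⁻¹ ≤ r ∧ r ≤ r0) (e : ℂ) :
    IntegrableOn (fun r : ℝ => ψ r * (r : ℂ) ^ e) (Set.Ioi 0) := by
  have hr0 : 0 < r0 := by linarith
  have h2 : ContinuousOn (fun r : ℝ => ψ r * (r : ℂ) ^ e) (Set.Icc r0⁻¹ r0) := by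
    refine ContinuousOn.mul (hc.mono fun r hr => lt_of_lt_of_le (inv_pos.2 hr0) hr.1) ?_
    intro r hr
    have hrp : 0 < r := lt_of_lt_of_le (inv_pos.2 hr0) hr.1
    exact (Complex.continuousAt_ofReal_cpow_const r e (Or.inr hrp.ne')).continuousWithinAt
  refine (h2.integrableOn_compact isCompact_Icc).of_forall_sdiff_eq_zero measurableSet_Ioi ?_
  intro r hr
  by_contra hne
  have h3 : ψ r ≠ 0 := fun h => hne (by rw [h, zero_mul])
  exact hr.2 (hs r hr.1 h3)

/-- the finite part of the sum -/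
noncomputable def gs (m : ℕ) (ψ : ℝ → ℂ) (lam : ℕ → ℂ) (X r : ℝ) : ℂ :=
  ∑ n ∈ Finset.Icc 1 ⌊X⌋₊,
    (n : ℂ) ^ (((m : ℂ) - 1) / 2) * lam n * ψ (r * (n : ℝ) ^ (-(1 / (m : ℝ))))

theorem thA_gs {m : ℕ} (hm : 1 ≤ m) {ψ : ℝ → ℂ} (lam : ℕ → ℂ) {r0 R X r : ℝ} (h1 : 1 < r0)
    (hs : ∀ r : ℝ, 0 < r → ψ r ≠ 0 → r0⁻¹ ≤ r ∧ r ≤ r0) (hR : 1 ≤ R)
    (hX : (3 * r0 * R) ^ m ≤ X) (hr : 0 < r) (hrR : r < 3 * R) :
    thA m ψ lam r = gs m ψ lam X r := by
  unfold thA gs
  rw [tsum_eq_sum (s := Finset.Icc 1 ⌊X⌋₊) ?_]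
  · refine Finset.sum_congr rfl fun n hn => ?_
    rw [if_pos (Finset.mem_Icc.1 hn).1]
  · intro n hn
    by_cases hc : 1 ≤ n
    · rw [if_pos hc]
      have hn1 : ⌊X⌋₊ < n := by
        by_contra h
        exact hn (Finset.mem_Icc.2 ⟨hc, not_lt.1 h⟩)
      have hn0 : (0 : ℝ) < n := by exact_mod_cast hc
      have h3 : X < (n : ℝ) := by
        have := Nat.lt_of_floor_lt hn1
        exact this
      have h4 : (r0 * (3 * R)) ^ m < (n : ℝ) := by
        refine lt_of_le_of_lt (le_of_eq ?_) (hX.trans_lt h3)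
        congr 1
        ring
      have h5 := thc_small hm (by linarith : (0 : ℝ) < r0) (by linarith : (0 : ℝ) < 3 * R) hrR h4
      have h6 : ψ (r * (n : ℝ) ^ (-(1 / (m : ℝ)))) = 0 := by
        by_contra hne
        exact absurd (hs _ (mul_pos hr (Real.rpow_pos_of_pos hn0 _)) hne).1 (not_le.2 h5)
      rw [h6, mul_zero]
    · rw [if_neg hc]

theorem gs_zero {m : ℕ} {ψ : ℝ → ℂ} (lam : ℕ → ℂ) {r0 X r : ℝ}
    (hs : ∀ r : ℝ, 0 < r → ψ r ≠ 0 → r0⁻¹ ≤ r ∧ r ≤ r0) (hr : 0 < r) (hr0 : r < r0⁻¹) :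
    gs m ψ lam X r = 0 := by
  unfold gs
  refine Finset.sum_eq_zero fun n hn => ?_
  have hn1 := (Finset.mem_Icc.1 hn).1
  have hn0 : (1 : ℝ) ≤ n := by exact_mod_cast hn1
  have hle : (n : ℝ) ^ (-(1 / (m : ℝ))) ≤ 1 :=
    Real.rpow_le_one_of_one_le_of_nonpos hn0 (by
      have : (0 : ℝ) ≤ 1 / (m : ℝ) := by positivity
      linarith)
  have h1 : r * (n : ℝ) ^ (-(1 / (m : ℝ))) < r0⁻¹ :=
    lt_of_le_of_lt (mul_le_of_le_one_right hr.le hle) hr0
  have h6 : ψ (r * (n : ℝ) ^ (-(1 / (m : ℝ)))) = 0 := by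
    by_contra hne
    exact absurd (hs _ (mul_pos hr (Real.rpow_pos_of_pos (by linarith) _)) hne).1 (not_le.2 h1)
  rw [h6, mul_zero]

theorem gs_int {m : ℕ} (hm : 1 ≤ m) {ψ : ℝ → ℂ} (hc : ContinuousOn ψ (Set.Ioi 0)) {r0 : ℝ}
    (h1 : 1 < r0) (hs : ∀ r : ℝ, 0 < r → ψ r ≠ 0 → r0⁻¹ ≤ r ∧ r ≤ r0) (lam : ℕ → ℂ) (X : ℝ)
    (v : ℂ) :
    IntegrableOn (fun r : ℝ => gs m ψ lam X r * (r : ℂ) ^ (-((m : ℂ) * v) - 1)) (Set.Ioi 0) ∧
    ∫ r in Set.Ioi (0 : ℝ), gs m ψ lam X r * (r : ℂ) ^ (-((m : ℂ) * v) - 1) =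
      (∑ n ∈ Finset.Icc 1 ⌊X⌋₊, (n : ℂ) ^ (((m : ℂ) - 1) / 2) * lam n * (n : ℂ) ^ (-v)) *
        ∫ r in Set.Ioi (0 : ℝ), ψ r * (r : ℂ) ^ (-((m : ℂ) * v) - 1) := by
  have hI := psi_int hc h1 hs (-((m : ℂ) * v) - 1)
  have hn : ∀ n ∈ Finset.Icc 1 ⌊X⌋₊, _ := fun n hn =>
    MEL.main hm ψ v hI n (Finset.mem_Icc.1 hn).1 ((n : ℂ) ^ (((m : ℂ) - 1) / 2) * lam n)
  have he : (fun r : ℝ => gs m ψ lam X r * (r : ℂ) ^ (-((m : ℂ) * v) - 1)) = fun r : ℝ =>
      ∑ n ∈ Finset.Icc 1 ⌊X⌋₊, (n : ℂ) ^ (((m : ℂ) - 1) / 2) * lam n *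
        ψ (r * (n : ℝ) ^ (-(1 / (m : ℝ)))) * (r : ℂ) ^ (-((m : ℂ) * v) - 1) := by
    funext r
    unfold gs
    rw [Finset.sum_mul]
  rw [he]
  constructor
  · exact integrable_finsetSum _ fun n h => (hn n h).1
  · rw [integral_finsetSum _ fun n h => (hn n h).1, Finset.sum_mul]
    exact Finset.sum_congr rfl fun n h => (hn n h).2.1

theorem exp_cpow {r : ℝ} (hr : 0 < r) (τ : ℝ) :
    Complex.exp (((τ * Real.log r : ℝ) : ℂ) * Complex.I) = (r : ℂ) ^ ((τ : ℂ) * Complex.I) := by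
  rw [Complex.cpow_def_of_ne_zero (by exact_mod_cast hr.ne'), ← Complex.ofReal_log hr.le]
  congr 1
  push_cast
  ring

theorem pf_AFD : T_AFD := by
  intro w k hw m r0 hm h1
  have hl0 : 0 < Real.log r0 := Real.log_pos h1
  refine ⟨Real.log r0 + 3, by linarith, ?_⟩
  intro ψ lam B hc hs hB hMel R X hR hX t
  have hr0 : 0 < r0 := by linarith
  have hR0 : 0 < R := by linarith
  have hlR : 0 ≤ Real.log R := Real.log_nonneg hR
  have hmR : (0 : ℝ) < m := by exact_mod_cast hm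
  have hmC : (m : ℂ) ≠ 0 := by exact_mod_cast hmR.ne'
  set a : ℝ := -Real.log r0 - 2 with ha
  set w0 : ℝ → ℂ := fun τ => (1 / 2 + ((t - τ / m : ℝ) : ℂ) * Complex.I) + ((m : ℂ) - 1) / 2
    with hw0
  set e0 : ℂ := -((m : ℂ) * ((1 / 2 + (t : ℂ) * Complex.I) + ((m : ℂ) - 1) / 2)) - 1 with he0
  have hwe : ∀ τ : ℝ, -((m : ℂ) * w0 τ) - 1 = (τ : ℂ) * Complex.I + e0 := by
    intro τ
    simp only [hw0, he0]
    push_cast
    field_simp
    ring
  have hw00 : -((m : ℂ) * w0 0) - 1 = e0 := by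
    rw [hwe 0, Complex.ofReal_zero, zero_mul, zero_add]
  have hkr := kr_int hw.cint a (Real.log R)
  have hG : Integrable (fun r : ℝ => gs m ψ lam X r * (r : ℂ) ^ e0)
      (volume.restrict (Set.Ioi 0)) := by
    have := (gs_int hm hc h1 hs lam X (w0 0)).1
    rw [hw00] at this
    exact this
  -- the window as a Fourier integral
  have hHW : HW m w R ψ lam t = ∫ r in Set.Ioi (0 : ℝ), ∫ τ : ℝ, (k τ * kr a (Real.log R) τ) *
      (Complex.exp (((τ * Real.log r : ℝ) : ℂ) * Complex.I) *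
        (gs m ψ lam X r * (r : ℂ) ^ e0)) := by
    unfold HW
    refine setIntegral_congr_fun measurableSet_Ioi fun r hr => ?_
    have hr' : (0 : ℝ) < r := hr
    show (Wq w R r : ℂ) * (thA m ψ lam r * (r : ℂ) ^ e0) = _
    have e1 : ∫ τ : ℝ, (k τ * kr a (Real.log R) τ) *
        (Complex.exp (((τ * Real.log r : ℝ) : ℂ) * Complex.I) *
          (gs m ψ lam X r * (r : ℂ) ^ e0)) = (∫ τ : ℝ, k τ * kr a (Real.log R) τ *
      Complex.exp (((τ * Real.log r : ℝ) : ℂ) * Complex.I)) *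
        (gs m ψ lam X r * (r : ℂ) ^ e0) := by
      rw [← integral_mul_const]
      refine integral_congr_ae (Filter.Eventually.of_forall fun τ => ?_)
      show _ = _
      ring
    rw [e1]
    rcases lt_or_ge r r0⁻¹ with hlt | hge
    · have h3 : r0⁻¹ ≤ 1 := inv_le_one_of_one_le₀ h1.le
      rw [thA_gs hm lam h1 hs hR hX hr' (by linarith), gs_zero lam hs hr' hlt]
      simp
    · have hlr : a + 2 ≤ Real.log r := by
        rw [ha]
        have := Real.log_le_log (inv_pos.2 hr0) hge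
        rw [Real.log_inv] at this
        linarith
      rw [← wq_eq hw hlr]
      rcases lt_or_ge (Real.log R + 1) (Real.log r) with hlt2 | hge2
      · rw [wq_zero hw hlt2]
        simp
      · have h4 : r < 3 * R := by
          have h5 : r ≤ Real.exp 1 * R := by
            calc r = Real.exp (Real.log r) := (Real.exp_log hr').symm
              _ ≤ Real.exp (1 + Real.log R) := Real.exp_le_exp.2 (by linarith)
              _ = Real.exp 1 * R := by rw [Real.exp_add, Real.exp_log hR0]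
          have h6 : Real.exp 1 < 3 := by
            have := Real.exp_one_lt_d9
            linarith
          nlinarith
        rw [thA_gs hm lam h1 hs hR hX hr' h4]
  -- the two integrals are exchanged
  have hJ : Integrable (Function.uncurry fun (r τ : ℝ) => (k τ * kr a (Real.log R) τ) *
      (Complex.exp (((τ * Real.log r : ℝ) : ℂ) * Complex.I) *
        (gs m ψ lam X r * (r : ℂ) ^ e0))) ((volume.restrict (Set.Ioi 0)).prod volume) := by
    have h2 := hG.mul_prod hkr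
    have h3 : Measurable fun z : ℝ × ℝ =>
        Complex.exp (((z.2 * Real.log z.1 : ℝ) : ℂ) * Complex.I) := by
      refine Complex.measurable_exp.comp ?_
      refine Measurable.mul_const (Complex.measurable_ofReal.comp ?_) _
      exact measurable_snd.mul (Real.measurable_log.comp measurable_fst)
    have h4 := h2.mul_bdd (c := 1) h3.aestronglyMeasurable
      (Filter.Eventually.of_forall fun z => by rw [Complex.norm_exp_ofReal_mul_I])
    refine h4.congr (Filter.Eventually.of_forall fun z => ?_)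
    show _ = (k z.2 * kr a (Real.log R) z.2) *
      (Complex.exp (((z.2 * Real.log z.1 : ℝ) : ℂ) * Complex.I) *
        (gs m ψ lam X z.1 * (z.1 : ℂ) ^ e0))
    ring
  have hin : ∀ τ : ℝ, ∫ r in Set.Ioi (0 : ℝ), (k τ * kr a (Real.log R) τ) *
      (Complex.exp (((τ * Real.log r : ℝ) : ℂ) * Complex.I) *
        (gs m ψ lam X r * (r : ℂ) ^ e0)) = (k τ * kr a (Real.log R) τ) *
      (SD lam X (t - τ / m) * MelA m ψ (1 / 2 + ((t - τ / m : ℝ) : ℂ) * Complex.I)) := by
    intro τ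
    rw [integral_const_mul]
    congr 1
    have e2 : ∀ r ∈ Set.Ioi (0 : ℝ), Complex.exp (((τ * Real.log r : ℝ) : ℂ) * Complex.I) *
        (gs m ψ lam X r * (r : ℂ) ^ e0) =
        gs m ψ lam X r * (r : ℂ) ^ (-((m : ℂ) * w0 τ) - 1) := by
      intro r hr
      have hr' : (0 : ℝ) < r := hr
      rw [exp_cpow hr', hwe τ, Complex.cpow_add _ _ (by exact_mod_cast hr'.ne')]
      ring
    rw [setIntegral_congr_fun measurableSet_Ioi e2, (gs_int hm hc h1 hs lam X (w0 τ)).2]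
    unfold MelA SD
    congr 1
    refine Finset.sum_congr rfl fun n hn => ?_
    have hn1 := (Finset.mem_Icc.1 hn).1
    have hnC : (n : ℂ) ≠ 0 := by exact_mod_cast (by omega : n ≠ 0)
    have h5 : (n : ℂ) ^ (-(1 / 2 + ((t - τ / m : ℝ) : ℂ) * Complex.I)) =
        (n : ℂ) ^ (((m : ℂ) - 1) / 2) * (n : ℂ) ^ (-(w0 τ)) := by
      rw [← Complex.cpow_add _ _ hnC]
      congr 1
      simp only [hw0]
      ring
    rw [h5]
    ring
  rw [hHW, integral_integral_swap hJ]
  simp only [hin]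
  -- the bound
  have hab : a ≤ Real.log R := by
    rw [ha]
    linarith
  obtain ⟨S, hS⟩ : ∃ S : ℝ, ∀ u : ℝ, ‖SD lam X u‖ ≤ S := by
    refine ⟨∑ n ∈ Finset.Icc 1 ⌊X⌋₊, ‖lam n‖, fun u => ?_⟩
    unfold SD
    refine (norm_sum_le _ _).trans (Finset.sum_le_sum fun n hn => ?_)
    have hn1 := (Finset.mem_Icc.1 hn).1
    have hn0 : (1 : ℝ) ≤ n := by exact_mod_cast hn1
    rw [norm_mul, Complex.norm_natCast_cpow_of_pos (by omega)]
    refine mul_le_of_le_one_right (norm_nonneg _) ?_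
    refine Real.rpow_le_one_of_one_le_of_nonpos hn0 ?_
    simp
  have hSDc : Continuous fun τ : ℝ => SD lam X (t - τ / m) := by
    unfold SD
    refine continuous_finsetSum _ fun n hn => ?_
    have hn1 := (Finset.mem_Icc.1 hn).1
    have hnC : (n : ℂ) ≠ 0 := by exact_mod_cast (by omega : n ≠ 0)
    refine continuous_const.mul ?_
    exact Continuous.const_cpow (by fun_prop) (Or.inl hnC)
  have hJKi : Integrable fun τ : ℝ => ‖k τ‖ * ‖SD lam X (t - τ / m)‖ :=
    hw.cint.norm.mul_bdd (c := S) hSDc.norm.aestronglyMeasurable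
      (Filter.Eventually.of_forall fun τ => by rw [norm_norm]; exact hS _)
  have hfin : ‖∫ τ : ℝ, (k τ * kr a (Real.log R) τ) *
      (SD lam X (t - τ / m) * MelA m ψ (1 / 2 + ((t - τ / m : ℝ) : ℂ) * Complex.I))‖ ≤
      ∫ τ : ℝ, ((Real.log R - a) * B) * (‖k τ‖ * ‖SD lam X (t - τ / m)‖) := by
    refine norm_integral_le_of_norm_le (hJKi.const_mul _)
      (Filter.Eventually.of_forall fun τ => ?_)
    rw [norm_mul, norm_mul, norm_mul]
    have h6 := kr_le hab τ
    have h7 := hMel (t - τ / m)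
    have h8 : 0 ≤ Real.log R - a := by linarith
    calc ‖k τ‖ * ‖kr a (Real.log R) τ‖ * (‖SD lam X (t - τ / m)‖ *
        ‖MelA m ψ (1 / 2 + ((t - τ / m : ℝ) : ℂ) * Complex.I)‖) ≤
        ‖k τ‖ * (Real.log R - a) * (‖SD lam X (t - τ / m)‖ * B) := by gcongr
      _ = _ := by ring
  refine hfin.trans ?_
  rw [integral_const_mul]
  have hJK0 : 0 ≤ JK m k lam X t := by
    unfold JK
    exact integral_nonneg fun τ => by positivity
  show (Real.log R - a) * B * JK m k lam X t ≤ _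
  refine mul_le_mul_of_nonneg_right (mul_le_mul_of_nonneg_right ?_ hB) hJK0
  rw [ha]
  nlinarith

end Pool.Agent.H52.GHY
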